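import Pool.Agent.Helper21.W4.St1

/-!
# Wilf in embedding dimension four: the main injection (module ALa)
-/

set_option autoImplicit false

namespace Pool.Agent.Helper72.W4

open Pool.Agent.Helper21.W4 Finset

theorem ala_mono {B : ℕ} {h : ℕ → ℕ → ℕ} (hA : Ar B h) {p p' q q' : ℕ} (hp : p ≤ p')
    (hq : q ≤ q') : h p' q' ≤ h p q := by
  have h1 : h p' q' ≤ h p q' :=
    (antitone_nat_of_succ_le (f := fun p => h p q') (fun n => hA.a1 n q')) hp
  have h2 : h p q' ≤ h p q :=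
    (antitone_nat_of_succ_le (f := fun q => h p q) (fun n => hA.a2 p n)) hq
  exact h1.trans h2

theorem ala_lt {B : ℕ} {h : ℕ → ℕ → ℕ} (hA : Ar B h) {p q : ℕ} (h0 : 0 < h p q) :
    p + 1 < B ∧ q + 1 < B := by
  constructor
  · by_contra hc
    have := hA.z1 p q (by omega)
    omega
  · by_contra hc
    have := hA.z2 p q (by omega)
    omega

/-- outside of the region where the cap is active -/
theorem ala_min {h : ℕ → ℕ → ℕ} {ci cj ck p q : ℕ} (hC : Cap h ci cj ck) (h0 : 0 < h p q)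
    (hR : ¬ inR h ci cj ck p q) : h p q = min (h p 0) (h 0 q) := by
  obtain ⟨c1, c2⟩ := hC p q h0
  by_cases hb : ci ≤ p ∧ cj ≤ q
  · have e := c1 hb
    have : ¬ (ck < h p 0 ∧ ck < h 0 q) := fun hh => hR ⟨hb.1, hb.2, h0, hh.1, hh.2⟩
    have h3 : min (h p 0) (h 0 q) ≤ ck := by
      by_cases h4 : ck < h p 0
      · have : ¬ ck < h 0 q := fun h5 => this ⟨h4, h5⟩
        exact (min_le_right _ _).trans (by omega)
      · exact (min_le_left _ _).trans (by omega)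
    rw [e, min_eq_left h3]
  · exact c2 hb

/-- comparison of sums along an injective map -/
theorem ala_inj {ι : Type} [DecidableEq ι] (I : Finset ι) (f : ι → ℕ × ℕ) (w : ι → ℕ)
    (S : Finset (ℕ × ℕ)) (h : ℕ → ℕ → ℕ) (hf : ∀ i ∈ I, f i ∈ S)
    (hi : ∀ i ∈ I, ∀ j ∈ I, f i = f j → i = j) (hw : ∀ i ∈ I, w i ≤ h (f i).1 (f i).2) :
    ∑ i ∈ I, w i ≤ ∑ x ∈ S, h x.1 x.2 := by
  calc ∑ i ∈ I, w i ≤ ∑ i ∈ I, h (f i).1 (f i).2 := Finset.sum_le_sum hw
    _ = ∑ x ∈ I.image f, h x.1 x.2 := by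
        rw [Finset.sum_image]
        intro i hi1 j hj1 e
        exact hi i hi1 j hj1 e
    _ ≤ ∑ x ∈ S, h x.1 x.2 := by
        apply Finset.sum_le_sum_of_subset
        intro x hx
        obtain ⟨i, hi1, rfl⟩ := Finset.mem_image.1 hx
        exact hf i hi1

theorem ala_add (R : Finset (ℕ × ℕ)) (f : ℕ × ℕ → ℕ) (P Q : ℕ × ℕ → Prop) [DecidablePred P]
    [DecidablePred Q] (hPQ : ∀ x, P x → Q x → False) :
    ∑ x ∈ R.filter P, f x + ∑ x ∈ R.filter Q, f x = ∑ x ∈ R.filter (fun x => P x ∨ Q x), f x := by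
  rw [Finset.filter_or, Finset.sum_union]
  rw [Finset.disjoint_left]
  intro x hx hy
  exact hPQ x (Finset.mem_filter.1 hx).2 (Finset.mem_filter.1 hy).2

/-- the image of the shift -/
def P1 (h : ℕ → ℕ → ℕ) (ci cj ck : ℕ) (x : ℕ × ℕ) : Prop :=
  (1 ≤ x.2 ∧ 2 ≤ h (x.1 + 1) x.2 ∧ ¬ inR h ci cj ck (x.1 + 1) x.2 ∧ h 0 x.2 ≤ h (x.1 + 1) 0) ∨
  (1 ≤ x.1 ∧ 2 ≤ h x.1 (x.2 + 1) ∧ ¬ inR h ci cj ck x.1 (x.2 + 1) ∧ h x.1 0 < h 0 (x.2 + 1))

def P2 (h : ℕ → ℕ → ℕ) (ci cj ck : ℕ) (x : ℕ × ℕ) : Prop :=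
  (h (x.1 + 1) x.2 = h x.1 x.2 ∨ h x.1 (x.2 + 1) = h x.1 x.2) ∧ 2 ≤ h x.1 x.2 ∧
    inR h ci cj ck x.1 x.2

def P4 (h : ℕ → ℕ → ℕ) (x : ℕ × ℕ) : Prop :=
  x.2 = 0 ∧ 1 ≤ x.1 ∧ h x.1 1 ≤ 1 ∧ h (x.1 + 1) 0 = h x.1 0 ∧ 2 ≤ h x.1 0

def P5 (h : ℕ → ℕ → ℕ) (x : ℕ × ℕ) : Prop :=
  x.1 = 0 ∧ 1 ≤ x.2 ∧ h 1 x.2 ≤ 1 ∧ h 0 (x.2 + 1) = h 0 x.2 ∧ 2 ≤ h 0 x.2

def P6 (h : ℕ → ℕ → ℕ) (x : ℕ × ℕ) : Prop :=
  x.1 = 0 ∧ x.2 = 0 ∧ (h 1 0 = h 0 0 ∨ h 0 1 = h 0 0)

def P7 (B : ℕ) (h : ℕ → ℕ → ℕ) (cj : ℕ) (x : ℕ × ℕ) : Prop :=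
  (1 ≤ x.2 ∧ x.2 + 1 < cj ∧ 2 ≤ h 1 x.2 ∧ ∀ p ∈ range B, h p (x.2 + 1) = h p x.2) ∧
    h x.1 x.2 = h 0 x.2 ∧ h (x.1 + 1) x.2 ≠ h 0 x.2

open Classical in
theorem hALa : StALa := by
  intro B h ci cj ck hA hci hcj hck h00 hC
  have hB : 0 < B := by
    have := ala_lt hA (p := 0) (q := 0) (by omega)
    omega
  set W : Finset (ℕ × ℕ) := range B ×ˢ range B with hW
  have memW : ∀ {p q : ℕ}, 0 < h p q → (p, q) ∈ W := by
    intro p q h0
    have := ala_lt hA h0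
    rw [hW, Finset.mem_product, Finset.mem_range, Finset.mem_range]
    exact ⟨by simp only; omega, by simp only; omega⟩
  -- the six parts
  have s1 : ∑ x ∈ W.filter
      (fun x => 2 ≤ h (x.1 + 1) (x.2 + 1) ∧ ¬ inR h ci cj ck (x.1 + 1) (x.2 + 1)),
      h (x.1 + 1) (x.2 + 1) ≤ ∑ x ∈ W.filter (P1 h ci cj ck), h x.1 x.2 := by
    apply ala_inj _ (fun x => if h 0 (x.2 + 1) ≤ h (x.1 + 1) 0 then (x.1, x.2 + 1)
      else (x.1 + 1, x.2))
    · rintro ⟨p, q⟩ hx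
      obtain ⟨-, h2, hR⟩ := Finset.mem_filter.1 hx
      simp only at h2 hR
      rw [Finset.mem_filter]
      by_cases hc : h 0 (q + 1) ≤ h (p + 1) 0
      · simp only [if_pos hc]
        have m1 := ala_mono hA (Nat.le_succ p) (le_refl (q + 1))
        refine ⟨memW (by simp only [Nat.succ_eq_add_one] at m1; omega), Or.inl ?_⟩
        exact ⟨by simp only; omega, h2, hR, hc⟩
      · simp only [if_neg hc]
        have m1 := ala_mono hA (le_refl (p + 1)) (Nat.le_succ q)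
        refine ⟨memW (by simp only [Nat.succ_eq_add_one] at m1; omega), Or.inr ?_⟩
        exact ⟨by simp only; omega, h2, hR, by simp only; omega⟩
    · rintro ⟨p, q⟩ hx ⟨p', q'⟩ hx' e
      simp only at e
      by_cases hc : h 0 (q + 1) ≤ h (p + 1) 0
      · by_cases hc' : h 0 (q' + 1) ≤ h (p' + 1) 0
        · rw [if_pos hc, if_pos hc', Prod.mk.injEq] at e
          rw [Prod.mk.injEq]
          exact ⟨e.1, by omega⟩
        · exfalso
          rw [if_pos hc, if_neg hc', Prod.mk.injEq] at e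
          obtain ⟨e1, e2⟩ := e
          subst e1
          subst e2
          have m1 := ala_mono hA (le_refl 0) (Nat.le_succ (q + 1))
          have m2 := ala_mono hA (Nat.le_succ (p' + 1)) (le_refl 0)
          simp only [Nat.succ_eq_add_one] at m1 m2
          omega
      · by_cases hc' : h 0 (q' + 1) ≤ h (p' + 1) 0
        · exfalso
          rw [if_neg hc, if_pos hc', Prod.mk.injEq] at e
          obtain ⟨e1, e2⟩ := e
          subst e1
          subst e2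
          have m1 := ala_mono hA (le_refl 0) (Nat.le_succ (q' + 1))
          have m2 := ala_mono hA (Nat.le_succ (p + 1)) (le_refl 0)
          simp only [Nat.succ_eq_add_one] at m1 m2
          omega
        · rw [if_neg hc, if_neg hc', Prod.mk.injEq] at e
          rw [Prod.mk.injEq]
          exact ⟨by omega, e.2⟩
    · rintro ⟨p, q⟩ hx
      by_cases hc : h 0 (q + 1) ≤ h (p + 1) 0
      · simp only [if_pos hc]
        exact ala_mono hA (Nat.le_succ p) (le_refl (q + 1))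
      · simp only [if_neg hc]
        exact ala_mono hA (le_refl (p + 1)) (Nat.le_succ q)
  have s2 : ∑ x ∈ W.filter
      (fun x => (h (x.1 + 1) x.2 = h x.1 x.2 ∨ h x.1 (x.2 + 1) = h x.1 x.2) ∧ 2 ≤ h x.1 x.2 ∧
        inR h ci cj ck x.1 x.2), h x.1 x.2 ≤ ∑ x ∈ W.filter (P2 h ci cj ck), h x.1 x.2 := by
    apply Finset.sum_le_sum_of_subset
    intro x hx
    rw [Finset.mem_filter] at hx ⊢
    exact hx
  have s4 : nd1 B h ≤ ∑ x ∈ W.filter (P4 h), h x.1 x.2 := by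
    unfold nd1
    rw [← Finset.sum_filter]
    apply ala_inj _ (fun p => (p + 1, 0))
    · intro p hp
      obtain ⟨-, h1, h2, h3⟩ := Finset.mem_filter.1 hp
      rw [Finset.mem_filter]
      exact ⟨memW (by omega), rfl, by simp only; omega, h1, h2, h3⟩
    · intro i _ j _ e
      simpa using e
    · intro i _
      exact le_refl _
  have s5 : nd2 B h ≤ ∑ x ∈ W.filter (P5 h), h x.1 x.2 := by
    unfold nd2
    rw [← Finset.sum_filter]
    apply ala_inj _ (fun p => (0, p + 1))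
    · intro p hp
      obtain ⟨-, h1, h2, h3⟩ := Finset.mem_filter.1 hp
      rw [Finset.mem_filter]
      exact ⟨memW (by omega), rfl, by simp only; omega, h1, h2, h3⟩
    · intro i _ j _ e
      simpa using e
    · intro i _
      exact le_refl _
  have s6 : org h ≤ ∑ x ∈ W.filter (P6 h), h x.1 x.2 := by
    unfold org
    split_ifs with hc
    · have hm : ((0 : ℕ), (0 : ℕ)) ∈ W.filter (P6 h) := by
        rw [Finset.mem_filter]
        exact ⟨memW (by omega), rfl, rfl, hc⟩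
      exact Finset.single_le_sum (f := fun x : ℕ × ℕ => h x.1 x.2) (fun _ _ => Nat.zero_le _) hm
    · exact Nat.zero_le _
  have s7 : 2 * dnv B h cj ≤ ∑ x ∈ W.filter (P7 B h cj), h x.1 x.2 := by
    unfold dnv
    rw [mul_comm, ← smul_eq_mul, ← Finset.sum_const]
    have key : ∀ r, 2 ≤ h 1 r →
        h (Nat.findGreatest (fun a => h a r = h 0 r) B) r = h 0 r ∧
        h (Nat.findGreatest (fun a => h a r = h 0 r) B + 1) r ≠ h 0 r := by
      intro r hr
      have e1 : h (Nat.findGreatest (fun a => h a r = h 0 r) B) r = h 0 r :=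
        Nat.findGreatest_spec (P := fun a => h a r = h 0 r) (Nat.zero_le B) rfl
      refine ⟨e1, ?_⟩
      have m1 := ala_mono hA (Nat.zero_le 1) (le_refl r)
      have l1 := ala_lt hA (p := Nat.findGreatest (fun a => h a r = h 0 r) B) (q := r) (by omega)
      exact Nat.findGreatest_is_greatest (P := fun a => h a r = h 0 r) (Nat.lt_succ_self _)
        (by omega)
    apply ala_inj _ (fun r => (Nat.findGreatest (fun a => h a r = h 0 r) B, r))
    · intro r hr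
      obtain ⟨-, h1, h2, h3, h4⟩ := Finset.mem_filter.1 hr
      have k := key r h3
      have m1 := ala_mono hA (Nat.zero_le 1) (le_refl r)
      rw [Finset.mem_filter]
      exact ⟨memW (by omega), ⟨h1, h2, h3, h4⟩, k.1, k.2⟩
    · intro i _ j _ e
      exact (Prod.mk.injEq _ _ _ _ ▸ e).2
    · intro r hr
      obtain ⟨-, h1, h2, h3, h4⟩ := Finset.mem_filter.1 hr
      have k := key r h3
      have m1 := ala_mono hA (Nat.zero_le 1) (le_refl r)
      simp only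
      omega
  -- they are contained in the target
  have u1 : ∀ x : ℕ × ℕ, P1 h ci cj ck x →
      (h (x.1 + 1) x.2 = h x.1 x.2 ∨ h x.1 (x.2 + 1) = h x.1 x.2) ∧ 2 ≤ h x.1 x.2 := by
    rintro ⟨a, b⟩ (⟨h1, h2, h3, h4⟩ | ⟨h1, h2, h3, h4⟩)
    · simp only at h1 h2 h3 h4 ⊢
      have e := ala_min hC (p := a + 1) (q := b) (by omega) h3
      rw [min_eq_right h4] at e
      have m1 := ala_mono hA (Nat.zero_le a) (le_refl b)
      have m2 := hA.a1 a b
      exact ⟨Or.inl (by omega), by omega⟩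
    · simp only at h1 h2 h3 h4 ⊢
      have e := ala_min hC (p := a) (q := b + 1) (by omega) h3
      rw [min_eq_left h4.le] at e
      have m1 := ala_mono hA (le_refl a) (Nat.zero_le b)
      have m2 := hA.a2 a b
      exact ⟨Or.inr (by omega), by omega⟩
  have u7 : ∀ x : ℕ × ℕ, P7 B h cj x →
      (h (x.1 + 1) x.2 = h x.1 x.2 ∨ h x.1 (x.2 + 1) = h x.1 x.2) ∧ 2 ≤ h x.1 x.2 := by
    rintro ⟨a, b⟩ ⟨⟨h1, h2, h3, h4⟩, h5, h6⟩
    simp only at h1 h2 h3 h4 h5 h6 ⊢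
    have m1 := ala_mono hA (Nat.zero_le 1) (le_refl b)
    have l1 := ala_lt hA (p := a) (q := b) (by omega)
    exact ⟨Or.inr (h4 a (Finset.mem_range.2 (by omega))), by omega⟩
  -- they are disjoint
  have d12 : ∀ x, P1 h ci cj ck x → P2 h ci cj ck x → False := by
    rintro ⟨a, b⟩ (⟨h1, h2, h3, h4⟩ | ⟨h1, h2, h3, h4⟩) ⟨-, -, r1, r2, r3, r4, r5⟩
    · simp only at h1 h2 h3 h4 r1 r2 r3 r4 r5
      exact h3 ⟨by omega, r2, by omega, by omega, r5⟩
    · simp only at h1 h2 h3 h4 r1 r2 r3 r4 r5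
      exact h3 ⟨r1, by omega, by omega, r4, by omega⟩
  have d34 : ∀ x, (P1 h ci cj ck x ∨ P2 h ci cj ck x) → P4 h x → False := by
    rintro ⟨a, b⟩ ((⟨h1, h2, h3, h4⟩ | ⟨h1, h2, h3, h4⟩) | ⟨-, -, r1, r2, r3, r4, r5⟩)
      ⟨k1, k2, k3, k4, k5⟩
    · simp only at h1 k1
      omega
    · simp only at h2 k1 k3
      subst k1
      simp only [Nat.zero_add] at h2
      omega
    · simp only at r2 k1
      omega
  have d45 : ∀ x, ((P1 h ci cj ck x ∨ P2 h ci cj ck x) ∨ P4 h x) → P5 h x → False := by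
    rintro ⟨a, b⟩ (((⟨h1, h2, h3, h4⟩ | ⟨h1, h2, h3, h4⟩) | ⟨-, -, r1, r2, r3, r4, r5⟩) |
      ⟨j1, j2, j3, j4, j5⟩) ⟨k1, k2, k3, k4, k5⟩
    · simp only at h2 k1 k3
      subst k1
      simp only [Nat.zero_add] at h2
      omega
    · simp only at h1 k1
      omega
    · simp only at r1 k1
      omega
    · simp only at j2 k1
      omega
  have d56 : ∀ x, (((P1 h ci cj ck x ∨ P2 h ci cj ck x) ∨ P4 h x) ∨ P5 h x) → P6 h x →
      False := by
    rintro ⟨a, b⟩ ((((⟨h1, h2, h3, h4⟩ | ⟨h1, h2, h3, h4⟩) | ⟨-, -, r1, r2, r3, r4, r5⟩) |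
      ⟨j1, j2, j3, j4, j5⟩) | ⟨i1, i2, i3, i4, i5⟩) ⟨k1, k2, k3⟩
    · simp only at h1 k2
      omega
    · simp only at h1 k1
      omega
    · simp only at r1 k1
      omega
    · simp only at j2 k1
      omega
    · simp only at i2 k2
      omega
  have d67 : ∀ x, ((((P1 h ci cj ck x ∨ P2 h ci cj ck x) ∨ P4 h x) ∨ P5 h x) ∨ P6 h x) →
      P7 B h cj x → False := by
    rintro ⟨a, b⟩ (((((⟨h1, h2, h3, h4⟩ | ⟨h1, h2, h3, h4⟩) | ⟨-, -, r1, r2, r3, r4, r5⟩) |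
      ⟨j1, j2, j3, j4, j5⟩) | ⟨i1, i2, i3, i4, i5⟩) | ⟨g1, g2, g3⟩) ⟨⟨k1, k2, k3, k4⟩, k5, k6⟩
    · simp only at h1 h2 h3 h4 k1 k2 k3 k4 k5 k6
      have e := ala_min hC (p := a + 1) (q := b) (by omega) h3
      rw [min_eq_right h4] at e
      exact k6 e
    · simp only at h1 h2 h3 h4 k1 k2 k3 k4 k5 k6
      have e := k4 0 (Finset.mem_range.2 hB)
      have m1 := ala_mono hA (le_refl a) (Nat.zero_le b)
      omega
    · simp only at r2 k2
      omega
    · simp only at j1 k1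
      omega
    · simp only at i1 i3 k3
      omega
    · simp only at g2 k1
      omega
  -- adding up
  have a1 := ala_add W (fun x => h x.1 x.2) _ _ d12
  have a2 := ala_add W (fun x => h x.1 x.2) _ _ d34
  have a3 := ala_add W (fun x => h x.1 x.2) _ _ d45
  have a4 := ala_add W (fun x => h x.1 x.2) _ _ d56
  have a5 := ala_add W (fun x => h x.1 x.2) _ _ d67
  have fin : ∑ x ∈ W.filter (fun x => ((((P1 h ci cj ck x ∨ P2 h ci cj ck x) ∨ P4 h x) ∨ P5 h x) ∨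
      P6 h x) ∨ P7 B h cj x), h x.1 x.2 ≤ ∑ x ∈ W.filter
      (fun x => (h (x.1 + 1) x.2 = h x.1 x.2 ∨ h x.1 (x.2 + 1) = h x.1 x.2) ∧ 2 ≤ h x.1 x.2),
      h x.1 x.2 := by
    apply Finset.sum_le_sum_of_subset
    rintro ⟨a, b⟩ hx
    rw [Finset.mem_filter] at hx ⊢
    refine ⟨hx.1, ?_⟩
    rcases hx.2 with ((((hh | hh) | hh) | hh) | hh) | hh
    · exact u1 _ hh
    · exact ⟨hh.1, hh.2.1⟩
    · obtain ⟨k1, k2, k3, k4, k5⟩ := hh
      simp only at k1 k2 k3 k4 k5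
      subst k1
      exact ⟨Or.inl k4, k5⟩
    · obtain ⟨k1, k2, k3, k4, k5⟩ := hh
      simp only at k1 k2 k3 k4 k5
      subst k1
      exact ⟨Or.inr k4, k5⟩
    · obtain ⟨k1, k2, k3⟩ := hh
      simp only at k1 k2 k3
      subst k1
      subst k2
      exact ⟨k3, h00⟩
    · exact u7 _ hh
  omega

end Pool.Agent.Helper72.W4
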